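import Mathlib
import Pool.Agent.D0H11.TW.Stm
import Pool.Agent.H353R2.Z2

/-!
# Project TW, module 2 FOUR: the fourth moment
-/

set_option autoImplicit false

namespace Pool.Agent.D0H87.TW

open Finset Filter Pool.Agent.D0H11.TW

theorem ph_sub (u a b : ℤ) : ph u a - ph u b = (a - b) * (420 * (a + b) + u) := by
  unfold ph; ring

theorem mem_box {T : ℕ} {t : Fin 4 → ℤ} : t ∈ box T ↔ ∀ i, 0 ≤ t i ∧ t i < T := by
  unfold Pool.Agent.D0H11.TW.box
  simp [Fintype.mem_piFinset]

theorem ph_inj {u a b : ℤ} (hu : 0 ≤ u) (ha : 0 ≤ a) (hb : 0 ≤ b) (h : ph u a - ph u b = 0) :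
    a = b := by
  rw [ph_sub] at h
  rcases mul_eq_zero.1 h with h1 | h1
  · linarith
  · omega

/-- the set of quadruples -/
noncomputable def SS (T : ℕ) (u : ℤ) : Finset (Fin 4 → ℤ) :=
  (box T).filter fun t => ph u (t 0) + ph u (t 1) = ph u (t 2) + ph u (t 3)

theorem fiber_diag (T : ℕ) (u : ℤ) (hu : 0 ≤ u) (x : ℤ) :
    ((SS T u).filter fun t => (t 0, t 2) = (x, x)).card ≤ T := by
  have h : ((SS T u).filter fun t => (t 0, t 2) = (x, x)).card ≤ (Ico (0 : ℤ) T).card := by
    apply Finset.card_le_card_of_injOn (fun t => t 1)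
    · intro t ht
      simp only [coe_filter, Set.mem_ofPred_eq, SS, mem_filter, mem_box] at ht
      simp only [coe_Ico, Set.mem_Ico]
      exact ht.1.1 1
    · intro t ht t' ht' h
      simp only [coe_filter, Set.mem_ofPred_eq, SS, mem_filter, mem_box, Prod.mk.injEq] at ht ht' h
      obtain ⟨⟨h1, h2⟩, h3, h4⟩ := ht
      obtain ⟨⟨h1', h2'⟩, h3', h4'⟩ := ht'
      have e1 : t 1 = t 3 := by
        apply ph_inj hu (h1 1).1 (h1 3).1
        rw [h3, h4] at h2
        linarith
      have e2 : t' 1 = t' 3 := by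
        apply ph_inj hu (h1' 1).1 (h1' 3).1
        rw [h3', h4'] at h2'
        linarith
      funext i
      fin_cases i
      · simpa using h3.trans h3'.symm
      · simpa using h
      · simpa using h4.trans h4'.symm
      · simp only [Fin.reduceFinMk]
        rw [← e1, ← e2]; exact h
  simpa using h

theorem fiber_off (T : ℕ) (u : ℤ) (hu : 0 ≤ u) (x z : ℤ) (hxz : x ≠ z) :
    ((SS T u).filter fun t => (t 0, t 2) = (x, z)).card ≤
      2 * ((ph u x - ph u z).natAbs.divisors).card := by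
  set N : ℤ := ph u x - ph u z with hN
  by_cases hem : ((SS T u).filter fun t => (t 0, t 2) = (x, z)) = ∅
  · rw [hem]; simp
  obtain ⟨t₀, ht₀⟩ := Finset.nonempty_iff_ne_empty.2 hem
  have hx : 0 ≤ x ∧ 0 ≤ z := by
    simp only [SS, mem_filter, mem_box, Prod.mk.injEq] at ht₀
    obtain ⟨⟨h1, h2⟩, h3, h4⟩ := ht₀
    exact ⟨h3 ▸ (h1 0).1, h4 ▸ (h1 2).1⟩
  have hN0 : N ≠ 0 := fun h => hxz (ph_inj hu hx.1 hx.2 h)
  have hle : ((SS T u).filter fun t => (t 0, t 2) = (x, z)).card ≤
      ((N.natAbs.divisors.image (fun d : ℕ => (d : ℤ))) ∪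
        (N.natAbs.divisors.image (fun d : ℕ => -(d : ℤ)))).card := by
    apply Finset.card_le_card_of_injOn (fun t => t 3 - t 1)
    · intro t ht
      simp only [coe_filter, Set.mem_ofPred_eq, SS, mem_filter, mem_box, Prod.mk.injEq] at ht
      obtain ⟨⟨h1, h2⟩, h3, h4⟩ := ht
      have e : N = (t 3 - t 1) * (420 * (t 3 + t 1) + u) := by
        rw [← ph_sub, hN, ← h3, ← h4]; linarith
      have hd : (t 3 - t 1).natAbs ∈ N.natAbs.divisors := by
        rw [Nat.mem_divisors]
        refine ⟨?_, by simpa using hN0⟩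
        rw [Int.natAbs_dvd_natAbs]
        exact ⟨_, e⟩
      simp only [coe_union, coe_image, Set.mem_union, Set.mem_image]
      rcases Int.natAbs_eq (t 3 - t 1) with h5 | h5
      · left
        exact ⟨_, hd, h5.symm⟩
      · right
        exact ⟨_, hd, h5.symm⟩
    · intro t ht t' ht' h
      simp only [coe_filter, Set.mem_ofPred_eq, SS, mem_filter, mem_box, Prod.mk.injEq] at ht ht' h
      obtain ⟨⟨h1, h2⟩, h3, h4⟩ := ht
      obtain ⟨⟨h1', h2'⟩, h3', h4'⟩ := ht'
      have e : N = (t 3 - t 1) * (420 * (t 3 + t 1) + u) := by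
        rw [← ph_sub, hN, ← h3, ← h4]; linarith
      have e' : N = (t' 3 - t' 1) * (420 * (t' 3 + t' 1) + u) := by
        rw [← ph_sub, hN, ← h3', ← h4']; linarith
      have hd0 : t 3 - t 1 ≠ 0 := by
        intro h0
        rw [h0] at e
        simp at e
        exact hN0 e
      have e2 : 420 * (t 3 + t 1) + u = 420 * (t' 3 + t' 1) + u := by
        apply mul_left_cancel₀ hd0
        rw [← e, h, ← e']
      have e3 : t 3 + t 1 = t' 3 + t' 1 := by linarith
      funext i
      fin_cases i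
      · simpa using h3.trans h3'.symm
      · simp only [Fin.reduceFinMk]
        have : (2 : ℤ) * t 1 = 2 * t' 1 := by linarith
        simpa using this
      · simpa using h4.trans h4'.symm
      · simp only [Fin.reduceFinMk]
        have : (2 : ℤ) * t 3 = 2 * t' 3 := by linarith
        linarith
  refine hle.trans ((Finset.card_union_le _ _).trans ?_)
  have h1 := Finset.card_image_le (s := N.natAbs.divisors) (f := fun d : ℕ => (d : ℤ))
  have h2 := Finset.card_image_le (s := N.natAbs.divisors) (f := fun d : ℕ => -(d : ℤ))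
  omega

theorem t_FOUR : S_FOUR := by
  intro ε hε
  obtain ⟨C, hC, hdiv⟩ := H353.divisor_bound_real (ε / 2) (by positivity)
  refine ⟨1 + 2 * C * (1260 : ℝ) ^ (ε / 2), by positivity, fun T u hT hu hu' => ?_⟩
  have hTr : (1 : ℝ) ≤ T := by exact_mod_cast hT
  have hTp : (0 : ℝ) < T := by linarith
  set I : Finset ℤ := Ico (0 : ℤ) T with hI
  have hIc : I.card = T := by simp [hI]
  have hcard : (SS T u).card = ∑ xz ∈ I ×ˢ I, ((SS T u).filter fun t => (t 0, t 2) = xz).card := by
    apply Finset.card_eq_sum_card_fiberwise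
    intro t ht
    simp only [SS, coe_filter, Set.mem_ofPred_eq, mem_box] at ht
    simp only [coe_product, hI, coe_Ico, Set.mem_prod, Set.mem_Ico]
    exact ⟨ht.1 0, ht.1 2⟩
  set D : ℝ := C * (1260 * (T : ℝ) ^ 2) ^ (ε / 2) with hD
  have hD0 : 0 ≤ D := by positivity
  have hfib : ∀ xz ∈ I ×ˢ I, ((((SS T u).filter fun t => (t 0, t 2) = xz).card : ℕ) : ℝ) ≤
      (if xz.1 = xz.2 then (T : ℝ) else 0) + 2 * D := by
    rintro ⟨x, z⟩ hxz
    simp only [hI, mem_product, mem_Ico] at hxz
    obtain ⟨⟨hx0, hxT⟩, hz0, hzT⟩ := hxz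
    by_cases h : x = z
    · subst h
      simp only [if_true]
      have h1 := fiber_diag T u hu x
      have h2 : ((((SS T u).filter fun t => (t 0, t 2) = (x, x)).card : ℕ) : ℝ) ≤ T := by
        exact_mod_cast h1
      linarith
    · simp only [h, if_false, zero_add]
      have h1 := fiber_off T u hu x z h
      have hN0 : (ph u x - ph u z) ≠ 0 := fun h' => h (ph_inj hu hx0 hz0 h')
      have hNn : (ph u x - ph u z).natAbs ≠ 0 := by simpa using hN0
      have h2 := hdiv _ hNn
      have h3 : (((ph u x - ph u z).natAbs : ℕ) : ℝ) ≤ 1260 * (T : ℝ) ^ 2 := by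
        have hb : ∀ a : ℤ, 0 ≤ a → a < T → 0 ≤ ph u a ∧ ph u a ≤ 1260 * (T : ℤ) ^ 2 := by
          intro a ha0 haT
          unfold ph
          refine ⟨by positivity, ?_⟩
          have hT1 : (1 : ℤ) ≤ T := by exact_mod_cast hT
          have e1 : a ^ 2 ≤ (T : ℤ) ^ 2 := by nlinarith
          have e2 : u * a ≤ 840 * (T : ℤ) := by nlinarith
          have e3 : (T : ℤ) ≤ (T : ℤ) ^ 2 := by nlinarith
          linarith
        have h4 := hb x hx0 hxT
        have h5 := hb z hz0 hzT
        have h6 : |ph u x - ph u z| ≤ 1260 * (T : ℤ) ^ 2 := by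
          rw [abs_le]; constructor <;> linarith
        have h7 : (((ph u x - ph u z).natAbs : ℕ) : ℤ) ≤ 1260 * (T : ℤ) ^ 2 := by
          rwa [Int.natCast_natAbs]
        exact_mod_cast h7
      have h4 : (((ph u x - ph u z).natAbs : ℕ) : ℝ) ^ (ε / 2) ≤ (1260 * (T : ℝ) ^ 2) ^ (ε / 2) :=
        Real.rpow_le_rpow (Nat.cast_nonneg _) h3 (by positivity)
      have h5 : ((((ph u x - ph u z).natAbs.divisors).card : ℕ) : ℝ) ≤ D :=
        h2.trans (by rw [hD]; exact mul_le_mul_of_nonneg_left h4 hC.le)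
      have h6 : ((((SS T u).filter fun t => (t 0, t 2) = (x, z)).card : ℕ) : ℝ) ≤
          2 * ((((ph u x - ph u z).natAbs.divisors).card : ℕ) : ℝ) := by exact_mod_cast h1
      linarith
  have hsum : (((SS T u).card : ℕ) : ℝ) ≤ (T : ℝ) * T + (T : ℝ) * T * (2 * D) := by
    rw [hcard]
    push_cast
    refine (Finset.sum_le_sum hfib).trans ?_
    rw [Finset.sum_add_distrib, Finset.sum_const, card_product, hIc, nsmul_eq_mul]
    have h1 : ∑ xz ∈ I ×ˢ I, (if xz.1 = xz.2 then (T : ℝ) else 0) = T * T := by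
      rw [Finset.sum_product]
      simp only [Finset.sum_ite_eq]
      rw [Finset.sum_congr rfl (fun x hx => if_pos hx), Finset.sum_const, hIc, nsmul_eq_mul]
    rw [h1]
    push_cast
    exact le_rfl
  have hfin : (T : ℝ) * T + (T : ℝ) * T * (2 * D) ≤
      (1 + 2 * C * (1260 : ℝ) ^ (ε / 2)) * (T : ℝ) ^ (2 + ε) := by
    have h1 : (T : ℝ) ^ (2 + ε) = (T : ℝ) * T * (T : ℝ) ^ ε := by
      rw [Real.rpow_add hTp]
      congr 1
      rw [Real.rpow_two]; ring
    have h2 : D = C * ((1260 : ℝ) ^ (ε / 2) * (T : ℝ) ^ ε) := by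
      rw [hD, Real.mul_rpow (by norm_num) (by positivity)]
      congr 2
      rw [← Real.rpow_natCast, ← Real.rpow_mul hTp.le]
      congr 1
      push_cast; ring
    have h3 : (1 : ℝ) ≤ (T : ℝ) ^ ε := Real.one_le_rpow hTr hε.le
    rw [h1, h2]
    have h4 : (T : ℝ) * T ≤ (T : ℝ) * T * (T : ℝ) ^ ε := le_mul_of_one_le_right (by positivity) h3
    nlinarith
  exact hsum.trans hfin

end Pool.Agent.D0H87.TW
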