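import Mathlib
import Pool.Agent.D0H11.TW.Stm

/-!
# Project TW, module 16 PHI: a moment of `n / φ(n)`
-/

set_option autoImplicit false

namespace Pool.Agent.D0H87.TW

open Finset Filter Pool.Agent.D0H11.TW

/-- the local factor -/
noncomputable def gp (p : ℕ) : ℝ := ((1 - (p : ℝ)⁻¹)⁻¹) ^ 4 - 1

theorem gp_nonneg {p : ℕ} (hp : 2 ≤ p) : 0 ≤ gp p := by
  unfold gp
  have h2 : (2 : ℝ) ≤ p := by exact_mod_cast hp
  have h3 : (p : ℝ)⁻¹ ≤ 1 / 2 := by
    rw [inv_le_comm₀ (by linarith) (by norm_num)]; linarith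
  have h4 : 0 < (p : ℝ)⁻¹ := by positivity
  have h5 : 1 ≤ (1 - (p : ℝ)⁻¹)⁻¹ := (one_le_inv₀ (by linarith)).2 (by linarith)
  have h6 : 1 ≤ ((1 - (p : ℝ)⁻¹)⁻¹) ^ 4 := one_le_pow₀ h5
  linarith

theorem gp_le {p : ℕ} (hp : 2 ≤ p) : gp p ≤ 30 / p := by
  unfold gp
  have h2 : (2 : ℝ) ≤ p := by exact_mod_cast hp
  set x : ℝ := (p : ℝ)⁻¹ with hx
  have h3 : x ≤ 1 / 2 := by
    rw [hx, inv_le_comm₀ (by linarith) (by norm_num)]; linarith
  have h4 : 0 < x := by positivity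
  rw [div_eq_mul_inv, ← hx]
  set y : ℝ := (1 - x)⁻¹ with hy
  have h5 : y ≤ 2 := by
    rw [hy, inv_le_comm₀ (by linarith) (by norm_num)]; linarith
  have h6 : 1 ≤ y := (one_le_inv₀ (by linarith)).2 (by linarith)
  have h7 : y * (1 - x) = 1 := by
    rw [hy]; exact inv_mul_cancel₀ (by linarith)
  have h8 : y - 1 = x * y := by linarith
  have h9 : y ^ 4 - 1 = (y - 1) * (y ^ 3 + y ^ 2 + y + 1) := by ring
  rw [h9, h8]
  have h10 : y ^ 3 + y ^ 2 + y + 1 ≤ 15 := by nlinarith [sq_nonneg y, mul_nonneg (sub_nonneg.2 h5) (sub_nonneg.2 h6)]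
  have h11 : 0 ≤ y ^ 3 + y ^ 2 + y + 1 := by positivity
  have h12 : x * y ≤ x * 2 := mul_le_mul_of_nonneg_left h5 h4.le
  calc x * y * (y ^ 3 + y ^ 2 + y + 1) ≤ x * 2 * 15 := by
        apply mul_le_mul h12 h10 h11 (by positivity)
    _ = 30 * x := by ring

theorem phi_pow (n : ℕ) (hn : 1 ≤ n) :
    ((n : ℝ) / Nat.totient n) ^ 4 = ∏ p ∈ n.primeFactors, (1 + gp p) := by
  have h1 : ((Nat.totient n : ℕ) : ℝ) = n * ∏ p ∈ n.primeFactors, (1 - (p : ℝ)⁻¹) := by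
    have := Nat.totient_eq_mul_prod_factors n
    have h2 : (((Nat.totient n : ℕ) : ℚ) : ℝ) = ((n * ∏ p ∈ n.primeFactors, (1 - (p : ℚ)⁻¹) : ℚ) : ℝ) := by
      rw [this]
    push_cast at h2
    exact h2
  have hn0 : (n : ℝ) ≠ 0 := by positivity
  rw [h1]
  have h2 : (n : ℝ) / (n * ∏ p ∈ n.primeFactors, (1 - (p : ℝ)⁻¹)) =
      ∏ p ∈ n.primeFactors, (1 - (p : ℝ)⁻¹)⁻¹ := by
    rw [Finset.prod_inv_distrib, div_mul_eq_div_div, div_self hn0, one_div]
  rw [h2, ← Finset.prod_pow]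
  apply Finset.prod_congr rfl
  intro p _
  unfold gp
  ring

theorem t_PHI : S_PHI := by
  have hsm : Summable (fun n : ℕ => 30 * (1 / (n : ℝ) ^ 2)) :=
    (Real.summable_one_div_nat_pow.2 (by norm_num)).mul_left 30
  refine ⟨Real.exp (∑' n : ℕ, 30 * (1 / (n : ℝ) ^ 2)), Real.exp_pos _, fun N => ?_⟩
  set PN : Finset ℕ := (Icc 1 N).filter Nat.Prime with hPN
  have hP : ∀ p ∈ PN, p.Prime := fun p hp => (mem_filter.1 hp).2
  have h1 : ∀ n ∈ Icc 1 N, ((n : ℝ) / Nat.totient n) ^ 4 =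
      ∑ S ∈ PN.powerset, if S ⊆ n.primeFactors then ∏ p ∈ S, gp p else 0 := by
    intro n hn
    rw [mem_Icc] at hn
    rw [phi_pow n hn.1, Finset.prod_one_add, ← Finset.sum_filter]
    apply Finset.sum_congr _ (fun _ _ => rfl)
    ext S
    simp only [mem_powerset, mem_filter]
    refine ⟨fun h => ⟨h.trans ?_, h⟩, fun h => h.2⟩
    intro p hp
    rw [hPN, mem_filter, mem_Icc]
    have hpp := Nat.prime_of_mem_primeFactors hp
    exact ⟨⟨hpp.one_lt.le, (Nat.le_of_mem_primeFactors hp).trans hn.2⟩, hpp⟩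
  rw [Finset.sum_congr rfl h1, Finset.sum_comm]
  have h2 : ∀ S ∈ PN.powerset, ∑ n ∈ Icc 1 N, (if S ⊆ n.primeFactors then ∏ p ∈ S, gp p else 0) ≤
      N * ∏ p ∈ S, (gp p / p) := by
    intro S hS
    rw [mem_powerset] at hS
    rw [← Finset.sum_filter, Finset.sum_const, nsmul_eq_mul, Finset.prod_div_distrib]
    have hG0 : 0 ≤ ∏ p ∈ S, gp p := Finset.prod_nonneg fun p hp => gp_nonneg (hP p (hS hp)).two_le
    have hprod : (0 : ℝ) < ∏ p ∈ S, (p : ℝ) := Finset.prod_pos fun p hp => by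
      exact_mod_cast (hP p (hS hp)).pos
    have hc : ((Icc 1 N).filter (fun n => S ⊆ n.primeFactors)).card ≤ N / ∏ p ∈ S, p := by
      rw [← Nat.Ioc_filter_dvd_card_eq_div]
      apply Finset.card_le_card
      intro n hn
      rw [mem_filter, mem_Icc] at hn
      rw [mem_filter, mem_Ioc]
      refine ⟨⟨hn.1.1, hn.1.2⟩, ?_⟩
      apply Finset.prod_primes_dvd
      · intro p hp
        exact (hP p (hS hp)).prime
      · intro p hp
        exact Nat.dvd_of_mem_primeFactors (hn.2 hp)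
    have hc' : ((((Icc 1 N).filter (fun n => S ⊆ n.primeFactors)).card : ℕ) : ℝ) ≤
        N / ∏ p ∈ S, (p : ℝ) := by
      have h3 : (((N / ∏ p ∈ S, p : ℕ)) : ℝ) ≤ (N : ℝ) / ((∏ p ∈ S, p : ℕ) : ℝ) := Nat.cast_div_le
      have h4 : ((((Icc 1 N).filter (fun n => S ⊆ n.primeFactors)).card : ℕ) : ℝ) ≤
          (((N / ∏ p ∈ S, p : ℕ)) : ℝ) := by exact_mod_cast hc
      refine h4.trans (h3.trans (le_of_eq ?_))
      push_cast
      rfl
    calc _ ≤ (N / ∏ p ∈ S, (p : ℝ)) * ∏ p ∈ S, gp p := mul_le_mul_of_nonneg_right hc' hG0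
      _ = _ := by ring
  refine (Finset.sum_le_sum h2).trans ?_
  rw [← Finset.mul_sum, ← Finset.prod_one_add, mul_comm]
  apply mul_le_mul_of_nonneg_right _ (Nat.cast_nonneg N)
  have h3 : ∀ p ∈ PN, 1 + gp p / p ≤ Real.exp (30 * (1 / (p : ℝ) ^ 2)) := by
    intro p hp
    have hp2 := (hP p hp).two_le
    have hp0 : (0 : ℝ) < p := by exact_mod_cast (hP p hp).pos
    have h4 := gp_le hp2
    have h5 : gp p / p ≤ 30 * (1 / (p : ℝ) ^ 2) := by
      calc gp p / p ≤ (30 / p) / p := div_le_div_of_nonneg_right h4 hp0.le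
        _ = _ := by field_simp
    have h6 := Real.add_one_le_exp (30 * (1 / (p : ℝ) ^ 2))
    linarith
  have h4 : ∀ p ∈ PN, 0 ≤ 1 + gp p / p := by
    intro p hp
    have := gp_nonneg (hP p hp).two_le
    positivity
  refine (Finset.prod_le_prod h4 h3).trans ?_
  rw [← Real.exp_sum]
  apply Real.exp_le_exp.2
  exact hsm.sum_le_tsum _ (fun i _ => by positivity)

end Pool.Agent.D0H87.TW
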