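import Mathlib

/-!
# Project TW, module 15 R4 (part a): bilinear congruences modulo `M`
-/

set_option autoImplicit false

namespace Pool.Agent.D0H87.TW

open Finset

/-- `∑ 1/n²` -/
noncomputable def KZ : ℝ := ∑' n : ℕ, 1 / (n : ℝ) ^ 2

theorem KZ_nonneg : 0 ≤ KZ := tsum_nonneg fun n => by positivity

theorem KZ_sum (s : Finset ℕ) : ∑ n ∈ s, 1 / (n : ℝ) ^ 2 ≤ KZ :=
  (Real.summable_one_div_nat_pow.2 (by norm_num)).sum_le_tsum _ (fun i _ => by positivity)

/-- `y ↦ x · y` -/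
def phx {M : ℕ} (x : Fin 3 → ZMod M) : (Fin 3 → ZMod M) →+ ZMod M where
  toFun y := ∑ i, x i * y i
  map_zero' := by simp
  map_add' y z := by simp [mul_add, Finset.sum_add_distrib]

theorem phx_apply {M : ℕ} (x y : Fin 3 → ZMod M) : phx x y = ∑ i, x i * y i := rfl

/-- size of the image -/
noncomputable def rr {M : ℕ} (x : Fin 3 → ZMod M) : ℕ := Nat.card (phx x).range

theorem rr_dvd {M : ℕ} [NeZero M] (x : Fin 3 → ZMod M) : rr x ∣ M := by
  have h := AddSubgroup.card_addSubgroup_dvd_card (phx x).range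
  rwa [Nat.card_zmod] at h

theorem rr_pos {M : ℕ} [NeZero M] (x : Fin 3 → ZMod M) : 0 < rr x := Nat.card_pos

theorem ker_mul {M : ℕ} [NeZero M] (x : Fin 3 → ZMod M) :
    Nat.card (phx x).ker * rr x = M ^ 3 := by
  have h := AddSubgroup.card_mul_index (phx x).ker
  rw [AddSubgroup.index_ker] at h
  rw [rr, h]
  simp [Nat.card_eq_fintype_card]

theorem ker_card {M : ℕ} [NeZero M] (x : Fin 3 → ZMod M) :
    ((univ : Finset (Fin 3 → ZMod M)).filter (fun y => ∑ i, x i * y i = 0)).card =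
      Nat.card (phx x).ker := by
  classical
  have h : Nat.card (phx x).ker = Nat.card {y : Fin 3 → ZMod M // ∑ i, x i * y i = 0} :=
    Nat.card_congr (Equiv.subtypeEquivRight fun y => Iff.rfl)
  rw [h, Nat.card_eq_fintype_card, Fintype.card_subtype]

theorem rr_nsmul {M : ℕ} [NeZero M] (x : Fin 3 → ZMod M) (i : Fin 3) : rr x • x i = 0 := by
  have h : x i ∈ (phx x).range := by
    refine ⟨Pi.single i 1, ?_⟩
    rw [phx_apply]
    simp [Pi.single_apply]
  have h2 : Nat.card (phx x).range • (⟨x i, h⟩ : (phx x).range) = 0 := card_nsmul_eq_zero'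
  have h3 := congrArg Subtype.val h2
  rw [AddSubgroup.coe_nsmul] at h3
  exact h3

theorem rr_count {M : ℕ} [NeZero M] (r : ℕ) (hr : 0 < r) :
    ((univ : Finset (Fin 3 → ZMod M)).filter (fun x => rr x = r)).card ≤ r ^ 3 := by
  classical
  have h1 : ((univ : Finset (Fin 3 → ZMod M)).filter (fun x => rr x = r)) ⊆
      Fintype.piFinset (fun _ : Fin 3 => (univ : Finset (ZMod M)).filter (fun z => r • z = 0)) := by
    intro x hx
    rw [mem_filter] at hx
    rw [Fintype.mem_piFinset]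
    intro i
    rw [mem_filter]
    exact ⟨mem_univ _, hx.2 ▸ rr_nsmul x i⟩
  refine (card_le_card h1).trans ?_
  rw [Fintype.card_piFinset]
  simp only [prod_const, card_univ, Fintype.card_fin]
  exact Nat.pow_le_pow_left (IsAddCyclic.card_nsmul_eq_zero_le hr) 3

theorem V_card (M : ℕ) [NeZero M] :
    (((univ : Finset ((Fin 3 → ZMod M) × (Fin 3 → ZMod M))).filter
      (fun p => ∑ i, p.1 i * p.2 i = 0)).card : ℝ) ≤ KZ * (M : ℝ) ^ 5 := by
  have hM : M ≠ 0 := NeZero.ne M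
  have hM0 : (0 : ℝ) < M := by positivity
  have h1 : ((univ : Finset ((Fin 3 → ZMod M) × (Fin 3 → ZMod M))).filter
      (fun p => ∑ i, p.1 i * p.2 i = 0)).card = ∑ x : Fin 3 → ZMod M, Nat.card (phx x).ker := by
    rw [Finset.card_filter, Fintype.sum_prod_type]
    apply Finset.sum_congr rfl
    intro x _
    rw [← ker_card, Finset.card_filter]
  rw [h1]
  have h2 : ∑ x : Fin 3 → ZMod M, Nat.card (phx x).ker =
      ∑ r ∈ M.divisors, ∑ x ∈ (univ : Finset (Fin 3 → ZMod M)).filter (fun x => rr x = r),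
        Nat.card (phx x).ker := by
    rw [Finset.sum_fiberwise_of_maps_to]
    intro x _
    rw [Nat.mem_divisors]
    exact ⟨rr_dvd x, hM⟩
  rw [h2]
  push_cast
  have h3 : ∀ r ∈ M.divisors, ∑ x ∈ (univ : Finset (Fin 3 → ZMod M)).filter (fun x => rr x = r),
      ((Nat.card (phx x).ker : ℕ) : ℝ) ≤ (M : ℝ) ^ 3 * (r : ℝ) ^ 2 := by
    intro r hr
    have hr0 : 0 < r := Nat.pos_of_mem_divisors hr
    have hr0' : (0 : ℝ) < r := by exact_mod_cast hr0
    have h4 : ∀ x ∈ (univ : Finset (Fin 3 → ZMod M)).filter (fun x => rr x = r),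
        ((Nat.card (phx x).ker : ℕ) : ℝ) = (M : ℝ) ^ 3 / r := by
      intro x hx
      rw [mem_filter] at hx
      have h5 := ker_mul x
      rw [hx.2] at h5
      rw [eq_div_iff hr0'.ne']
      exact_mod_cast h5
    rw [Finset.sum_congr rfl h4, Finset.sum_const, nsmul_eq_mul]
    have h5 : ((((univ : Finset (Fin 3 → ZMod M)).filter (fun x => rr x = r)).card : ℕ) : ℝ) ≤
        (r : ℝ) ^ 3 := by exact_mod_cast rr_count r hr0
    calc _ ≤ (r : ℝ) ^ 3 * ((M : ℝ) ^ 3 / r) := mul_le_mul_of_nonneg_right h5 (by positivity)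
      _ = _ := by field_simp
  refine (Finset.sum_le_sum h3).trans ?_
  rw [← Finset.mul_sum, ← Nat.sum_div_divisors M (fun r => (r : ℝ) ^ 2)]
  have h4 : ∀ d ∈ M.divisors, (((M / d : ℕ) : ℝ)) ^ 2 = (M : ℝ) ^ 2 * (1 / (d : ℝ) ^ 2) := by
    intro d hd
    have hd0 : (d : ℝ) ≠ 0 := by
      have := Nat.pos_of_mem_divisors hd
      positivity
    rw [Nat.cast_div (Nat.dvd_of_mem_divisors hd) hd0]
    field_simp
  rw [Finset.sum_congr rfl h4, ← Finset.mul_sum]
  have h5 := KZ_sum M.divisors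
  calc (M : ℝ) ^ 3 * ((M : ℝ) ^ 2 * ∑ d ∈ M.divisors, 1 / (d : ℝ) ^ 2)
      ≤ (M : ℝ) ^ 3 * ((M : ℝ) ^ 2 * KZ) := by gcongr
    _ = _ := by ring

/-- a residue class in `[-B, B]` -/
theorem cls_card (M : ℕ) (hM : 0 < M) (B : ℕ) (c : ZMod M) :
    ((Icc (-(B : ℤ)) B).filter (fun k : ℤ => (k : ZMod M) = c)).card ≤ 2 * B / M + 1 := by
  have h : ((Icc (-(B : ℤ)) B).filter (fun k : ℤ => (k : ZMod M) = c)).card ≤
      (Icc (0 : ℤ) ((2 * B / M : ℕ) : ℤ)).card := by
    apply Finset.card_le_card_of_injOn (fun k : ℤ => (k + (B : ℤ)) / (M : ℤ))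
    · intro k hk
      simp only [coe_filter, Set.mem_ofPred_eq, mem_Icc] at hk
      simp only [coe_Icc, Set.mem_Icc]
      refine ⟨Int.ediv_nonneg (by linarith [hk.1.1]) (by positivity), ?_⟩
      push_cast
      exact Int.ediv_le_ediv (by exact_mod_cast hM) (by linarith [hk.1.2])
    · intro k hk k' hk' hkk
      simp only [coe_filter, Set.mem_ofPred_eq, mem_Icc] at hk hk' hkk
      have h1 : ((k : ℤ) : ZMod M) = ((k' : ℤ) : ZMod M) := by rw [hk.2, hk'.2]
      rw [ZMod.intCast_eq_intCast_iff] at h1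
      have h2 : (k + B) % (M : ℤ) = (k' + B) % (M : ℤ) := Int.ModEq.add_right _ h1
      have h3 := Int.emod_add_mul_ediv (k + B) M
      have h4 := Int.emod_add_mul_ediv (k' + B) M
      rw [h2, hkk] at h3
      linarith
  refine h.trans ?_
  rw [Int.card_Icc]
  generalize 2 * B / M = t
  omega

end Pool.Agent.D0H87.TW
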