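import Mathlib
import Pool.Agent.D0H87.TW.R4a

/-!
# Project TW, module 15 R4 (part b): solutions of `a · b = 0` in boxes
-/

set_option autoImplicit false

namespace Pool.Agent.D0H87.TW

open Finset

/-- `[-B, B]^d` -/
noncomputable def bx (d B : ℕ) : Finset (Fin d → ℤ) := Fintype.piFinset fun _ => Icc (-(B : ℤ)) B

theorem mem_bx {d B : ℕ} {a : Fin d → ℤ} : a ∈ bx d B ↔ ∀ i, |a i| ≤ B := by
  unfold bx
  simp only [Fintype.mem_piFinset, mem_Icc, abs_le]

/-- `a ∈ [-M, M]³`, `b ∈ [-B, B]³`, `M ∣ a · b` -/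
noncomputable def WW (M B : ℕ) : Finset ((Fin 3 → ℤ) × (Fin 3 → ℤ)) :=
  (bx 3 M ×ˢ bx 3 B).filter (fun p => (M : ℤ) ∣ ∑ i, p.1 i * p.2 i)

theorem WW_card (M B : ℕ) (hM : 1 ≤ M) (hMB : M ≤ B) :
    ((WW M B).card : ℝ) ≤ 729 * KZ * (B : ℝ) ^ 3 * (M : ℝ) ^ 2 := by
  classical
  have : NeZero M := ⟨by omega⟩
  have hM0 : (0 : ℝ) < M := by exact_mod_cast hM
  set V := (univ : Finset ((Fin 3 → ZMod M) × (Fin 3 → ZMod M))).filter
      (fun p => ∑ i, p.1 i * p.2 i = 0) with hV
  set k : ℕ := 2 * B / M + 1 with hk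
  have h1 : (WW M B).card ≤ (27 * k ^ 3) * V.card := by
    apply Finset.card_le_mul_card_image_of_maps_to (f := fun p : (Fin 3 → ℤ) × (Fin 3 → ℤ) =>
      ((fun i => ((p.1 i : ℤ) : ZMod M)), (fun i => ((p.2 i : ℤ) : ZMod M))))
    · intro p hp
      rw [WW, mem_filter] at hp
      rw [hV, mem_filter]
      refine ⟨mem_univ _, ?_⟩
      have h2 := (ZMod.intCast_zmod_eq_zero_iff_dvd _ M).2 hp.2
      push_cast at h2
      exact h2
    · rintro ⟨x, y⟩ _
      have h2 : (WW M B).filter (fun p => ((fun i => ((p.1 i : ℤ) : ZMod M)),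
          (fun i => ((p.2 i : ℤ) : ZMod M))) = (x, y)) ⊆
          (Fintype.piFinset fun i : Fin 3 => (Icc (-(M : ℤ)) M).filter (fun k : ℤ => (k : ZMod M) = x i)) ×ˢ
          (Fintype.piFinset fun i : Fin 3 => (Icc (-(B : ℤ)) B).filter (fun k : ℤ => (k : ZMod M) = y i)) := by
        intro p hp
        rw [mem_filter, WW, mem_filter, mem_product, bx, bx, Fintype.mem_piFinset,
          Fintype.mem_piFinset, Prod.mk.injEq] at hp
        rw [mem_product, Fintype.mem_piFinset, Fintype.mem_piFinset]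
        exact ⟨fun i => mem_filter.2 ⟨hp.1.1.1 i, congrFun hp.2.1 i⟩,
          fun i => mem_filter.2 ⟨hp.1.1.2 i, congrFun hp.2.2 i⟩⟩
      refine (card_le_card h2).trans ?_
      rw [card_product, Fintype.card_piFinset, Fintype.card_piFinset]
      have h3 : ∏ i : Fin 3, ((Icc (-(M : ℤ)) M).filter (fun k : ℤ => (k : ZMod M) = x i)).card ≤ 27 := by
        calc _ ≤ ∏ _i : Fin 3, 3 := by
              apply Finset.prod_le_prod' 
              intro i _
              refine (cls_card M hM M (x i)).trans ?_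
              have : 2 * M / M = 2 := Nat.mul_div_cancel _ hM
              omega
          _ = 27 := by simp
      have h4 : ∏ i : Fin 3, ((Icc (-(B : ℤ)) B).filter (fun k : ℤ => (k : ZMod M) = y i)).card ≤ k ^ 3 := by
        calc _ ≤ ∏ _i : Fin 3, k := by
              apply Finset.prod_le_prod'
              intro i _
              exact cls_card M hM B (y i)
          _ = k ^ 3 := by simp
      exact Nat.mul_le_mul h3 h4
  have h2 := V_card M
  rw [← hV] at h2
  have h3 : (k : ℝ) * M ≤ 3 * B := by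
    have h4 : k * M ≤ 3 * B := by
      rw [hk, add_mul, one_mul]
      have := Nat.div_mul_le_self (2 * B) M
      omega
    exact_mod_cast h4
  have h4 : ((k : ℝ) * M) ^ 3 ≤ (3 * B) ^ 3 := pow_le_pow_left₀ (by positivity) h3 3
  have h5 : ((WW M B).card : ℝ) ≤ (27 * (k : ℝ) ^ 3) * V.card := by exact_mod_cast h1
  calc ((WW M B).card : ℝ) ≤ (27 * (k : ℝ) ^ 3) * V.card := h5
    _ ≤ (27 * (k : ℝ) ^ 3) * (KZ * (M : ℝ) ^ 5) := by gcongr
    _ = 27 * KZ * (M : ℝ) ^ 2 * ((k : ℝ) * M) ^ 3 := by ring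
    _ ≤ 27 * KZ * (M : ℝ) ^ 2 * (3 * B) ^ 3 := by
        apply mul_le_mul_of_nonneg_left h4
        have := KZ_nonneg
        positivity
    _ = _ := by ring

/-- `a, b ∈ [-B, B]⁴`, `a · b = 0` -/
noncomputable def Z4 (B : ℕ) : Finset ((Fin 4 → ℤ) × (Fin 4 → ℤ)) :=
  (bx 4 B ×ˢ bx 4 B).filter (fun p => ∑ i, p.1 i * p.2 i = 0)

/-- the part with `a j` maximal, not `0` -/
noncomputable def Zj (B : ℕ) (j : Fin 4) : Finset ((Fin 4 → ℤ) × (Fin 4 → ℤ)) :=
  (Z4 B).filter (fun p => p.1 j ≠ 0 ∧ ∀ i, |p.1 i| ≤ |p.1 j|)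

theorem Zj_le (B : ℕ) (j : Fin 4) : (Zj B j).card ≤ (Zj B 0).card := by
  set σ := Equiv.swap (0 : Fin 4) j with hσ
  apply Finset.card_le_card_of_injOn (fun p => (p.1 ∘ σ, p.2 ∘ σ))
  · intro p hp
    simp only [Zj, Z4, coe_filter, mem_filter, mem_product, mem_bx, Set.mem_ofPred_eq] at hp ⊢
    obtain ⟨⟨⟨h1, h2⟩, h3⟩, h4, h5⟩ := hp
    refine ⟨⟨⟨fun i => h1 _, fun i => h2 _⟩, ?_⟩, ?_, ?_⟩
    · rw [← h3]
      exact Equiv.sum_comp σ (fun i => p.1 i * p.2 i)
    · simpa [hσ, Equiv.swap_apply_left] using h4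
    · intro i
      simp only [Function.comp_apply, hσ, Equiv.swap_apply_left]
      exact h5 _
  · intro p _ p' _ h
    simp only [Prod.mk.injEq] at h
    have h1 : p.1 = p'.1 := by
      funext i
      have := congrFun h.1 (σ.symm i)
      simpa using this
    have h2 : p.2 = p'.2 := by
      funext i
      have := congrFun h.2 (σ.symm i)
      simpa using this
    exact Prod.ext h1 h2

theorem Z0_fib (B M : ℕ) (hM : 1 ≤ M) :
    ((Zj B 0).filter (fun p => (p.1 0).natAbs = M)).card ≤ 2 * (WW M B).card := by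
  have h : ((Zj B 0).filter (fun p => (p.1 0).natAbs = M)).card ≤
      ((univ : Finset Bool) ×ˢ (WW M B)).card := by
    apply Finset.card_le_card_of_injOn (fun p => (decide (0 < p.1 0),
      ((fun i : Fin 3 => p.1 i.succ), (fun i : Fin 3 => p.2 i.succ))))
    · intro p hp
      simp only [Zj, Z4, WW, coe_filter, mem_filter, mem_product, mem_bx, Set.mem_ofPred_eq,
        coe_product, Set.mem_prod, coe_univ, Set.mem_univ, true_and] at hp ⊢
      obtain ⟨⟨⟨⟨h1, h2⟩, h3⟩, h4, h5⟩, h6⟩ := hp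
      have h7 : |p.1 0| = M := by rw [← h6, Int.natCast_natAbs]
      refine ⟨⟨fun i => h7 ▸ h5 _, fun i => h2 _⟩, ?_⟩
      rw [Fin.sum_univ_succ] at h3
      have h8 : ∑ i : Fin 3, p.1 i.succ * p.2 i.succ = -(p.1 0 * p.2 0) := by linarith
      rw [h8, dvd_neg, ← h7]
      exact dvd_mul_of_dvd_left (abs_dvd_self _) _
    · intro p hp p' hp' h
      simp only [Zj, Z4, coe_filter, mem_filter, mem_product, Set.mem_ofPred_eq] at hp hp'
      simp only [Prod.mk.injEq, decide_eq_decide] at h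
      obtain ⟨h1, h2, h3⟩ := h
      have e0 : p.1 0 = p'.1 0 := by
        have h4 := hp.2
        have h5 := hp'.2
        have h6 : p.1 0 ≠ 0 := hp.1.2.1
        have h7 : p'.1 0 ≠ 0 := hp'.1.2.1
        omega
      have e1 : p.1 = p'.1 := by
        funext i
        refine Fin.cases e0 (fun i => congrFun h2 i) i
      have s1 := hp.1.1.2
      have s2 := hp'.1.1.2
      rw [Fin.sum_univ_succ] at s1 s2
      have s3 : ∑ i : Fin 3, p.1 i.succ * p.2 i.succ = ∑ i : Fin 3, p'.1 i.succ * p'.2 i.succ := by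
        apply Finset.sum_congr rfl
        intro i _
        rw [congrFun h2 i, congrFun h3 i]
      have s4 : p.1 0 * p.2 0 = p.1 0 * p'.2 0 := by
        rw [← e0] at s2
        linarith
      have e2 : p.2 0 = p'.2 0 := mul_left_cancel₀ hp.1.2.1 s4
      have e3 : p.2 = p'.2 := by
        funext i
        refine Fin.cases e2 (fun i => congrFun h3 i) i
      exact Prod.ext e1 e3
  simpa using h

theorem Z0_card (B : ℕ) : ((Zj B 0).card : ℝ) ≤ 1458 * KZ * (B : ℝ) ^ 6 := by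
  have h1 : (Zj B 0).card = ∑ M ∈ Icc 1 B, ((Zj B 0).filter (fun p => (p.1 0).natAbs = M)).card := by
    apply Finset.card_eq_sum_card_fiberwise
    intro p hp
    simp only [Zj, Z4, coe_filter, mem_filter, mem_product, mem_bx, Set.mem_ofPred_eq] at hp
    simp only [coe_Icc, Set.mem_Icc]
    have h2 := hp.1.1.1 0
    have h3 := hp.2.1
    have h4 : (((p.1 0).natAbs : ℕ) : ℤ) ≤ B := by rw [Int.natCast_natAbs]; exact h2
    omega
  rw [h1]
  push_cast
  have h2 : ∀ M ∈ Icc 1 B, ((((Zj B 0).filter (fun p => (p.1 0).natAbs = M)).card : ℕ) : ℝ) ≤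
      1458 * KZ * (B : ℝ) ^ 5 := by
    intro M hM
    rw [mem_Icc] at hM
    have h3 := Z0_fib B M hM.1
    have h4 := WW_card M B hM.1 hM.2
    have h5 : ((((Zj B 0).filter (fun p => (p.1 0).natAbs = M)).card : ℕ) : ℝ) ≤
        2 * ((WW M B).card : ℝ) := by exact_mod_cast h3
    have h6 : (M : ℝ) ≤ B := by exact_mod_cast hM.2
    have hKZ := KZ_nonneg
    calc _ ≤ 2 * ((WW M B).card : ℝ) := h5
      _ ≤ 2 * (729 * KZ * (B : ℝ) ^ 3 * (M : ℝ) ^ 2) := by linarith
      _ ≤ 2 * (729 * KZ * (B : ℝ) ^ 3 * (B : ℝ) ^ 2) := by gcongr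
      _ = _ := by ring
  refine (Finset.sum_le_sum h2).trans ?_
  rw [Finset.sum_const, nsmul_eq_mul, Nat.card_Icc]
  simp only [Nat.add_sub_cancel]
  apply le_of_eq
  ring

theorem Z4_card (B : ℕ) (hB : 1 ≤ B) : ((Z4 B).card : ℝ) ≤ (81 + 5832 * KZ) * (B : ℝ) ^ 6 := by
  classical
  have hB1 : (1 : ℝ) ≤ B := by exact_mod_cast hB
  have h1 : Z4 B ⊆ ((Z4 B).filter (fun p => p.1 = 0)) ∪ (univ : Finset (Fin 4)).biUnion (Zj B) := by
    intro p hp
    rw [mem_union, mem_filter, mem_biUnion]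
    by_cases h : p.1 = 0
    · left; exact ⟨hp, h⟩
    · right
      obtain ⟨j, _, hj⟩ := Finset.exists_max_image (univ : Finset (Fin 4)) (fun i => |p.1 i|)
        ⟨0, mem_univ _⟩
      refine ⟨j, mem_univ _, ?_⟩
      rw [Zj, mem_filter]
      refine ⟨hp, ?_, fun i => hj i (mem_univ _)⟩
      intro h0
      apply h
      funext i
      have := hj i (mem_univ _)
      rw [h0, abs_zero] at this
      exact abs_nonpos_iff.1 this
  have h2 : ((Z4 B).filter (fun p => p.1 = 0)).card ≤ (2 * B + 1) ^ 4 := by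
    have h3 : ((Z4 B).filter (fun p => p.1 = 0)).card ≤ (bx 4 B).card := by
      apply Finset.card_le_card_of_injOn (fun p => p.2)
      · intro p hp
        simp only [Z4, coe_filter, mem_filter, mem_product, Set.mem_ofPred_eq] at hp
        exact hp.1.1.2
      · intro p hp p' hp' h
        simp only [coe_filter, Set.mem_ofPred_eq] at hp hp'
        exact Prod.ext (hp.2.trans hp'.2.symm) h
    refine h3.trans ?_
    unfold bx
    rw [Fintype.card_piFinset]
    simp only [Int.card_Icc, prod_const, card_univ, Fintype.card_fin]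
    apply le_of_eq
    congr 1
    omega
  have h3 : (Z4 B).card ≤ (2 * B + 1) ^ 4 + 4 * (Zj B 0).card := by
    refine (card_le_card h1).trans ((card_union_le _ _).trans (add_le_add h2 ?_))
    refine card_biUnion_le.trans ?_
    refine (Finset.sum_le_sum (fun j _ => Zj_le B j)).trans ?_
    simp
  have h4 : ((Z4 B).card : ℝ) ≤ (2 * (B : ℝ) + 1) ^ 4 + 4 * ((Zj B 0).card : ℝ) := by exact_mod_cast h3
  have h5 := Z0_card B
  have h6 : (2 * (B : ℝ) + 1) ^ 4 ≤ (3 * (B : ℝ)) ^ 4 := pow_le_pow_left₀ (by positivity) (by linarith) 4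
  have h7 : (B : ℝ) ^ 4 ≤ (B : ℝ) ^ 6 := pow_le_pow_right₀ hB1 (by norm_num)
  nlinarith

end Pool.Agent.D0H87.TW
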