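import Mathlib
import Pool.Agent.D0H11.TW.StmB
import Pool.Agent.D0H87.TW.R4b

/-!
# Project TW, module 15 R4: second moment of the number of representations as four squares
-/

set_option autoImplicit false

namespace Pool.Agent.D0H87.TW

open Finset Pool.Agent.W65.FS Pool.Agent.D0H11.TW

theorem reps_abs {N n : ℕ} (hn : n ≤ N) {v : Fin 4 → ℤ} (hv : v ∈ reps n) (i : Fin 4) :
    |v i| ≤ (Nat.sqrt N : ℕ) := by
  rw [mem_reps] at hv
  have h1 : v i ^ 2 ≤ n := by
    rw [← hv]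
    exact Finset.single_le_sum (f := fun i => v i ^ 2) (fun j _ => sq_nonneg _) (Finset.mem_univ i)
  have h2 : (v i).natAbs ≤ Nat.sqrt N := by
    rw [Nat.le_sqrt]
    have h3 : (((v i).natAbs * (v i).natAbs : ℕ) : ℤ) ≤ N := by
      rw [Int.natAbs_mul_self]
      have : (n : ℤ) ≤ N := by exact_mod_cast hn
      nlinarith
    exact_mod_cast h3
  rw [← Int.natCast_natAbs]
  exact_mod_cast h2

theorem sum_le_Z4 (N : ℕ) : ∑ n ∈ Icc 1 N, (reps n).card ^ 2 ≤ (Z4 (2 * Nat.sqrt N)).card := by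
  classical
  have h1 : ∑ n ∈ Icc 1 N, (reps n).card ^ 2 =
      ((Icc 1 N).biUnion (fun n => (reps n) ×ˢ (reps n))).card := by
    rw [card_biUnion]
    · apply Finset.sum_congr rfl
      intro n _
      rw [card_product, sq]
    · intro n _ m _ hnm
      simp only [Function.onFun]
      rw [Finset.disjoint_left]
      intro p hp hp'
      rw [mem_product, mem_reps, mem_reps] at hp hp'
      apply hnm
      have : (n : ℤ) = m := by rw [← hp.1, ← hp'.1]
      exact_mod_cast this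
  rw [h1]
  apply Finset.card_le_card_of_injOn (fun p => (fun i => p.1 i - p.2 i, fun i => p.1 i + p.2 i))
  · intro p hp
    simp only [coe_biUnion, Set.mem_iUnion, coe_product, Set.mem_prod, mem_coe] at hp
    obtain ⟨n, hn, h2, h3⟩ := hp
    rw [mem_Icc] at hn
    have a1 := reps_abs hn.2 h2
    have a2 := reps_abs hn.2 h3
    simp only [Z4, coe_filter, mem_product, mem_bx, Set.mem_ofPred_eq]
    refine ⟨⟨fun i => ?_, fun i => ?_⟩, ?_⟩
    · have h4 := a1 i
      have h5 := a2 i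
      rw [abs_le] at h4 h5 ⊢
      push_cast
      constructor <;> linarith [h4.1, h4.2, h5.1, h5.2]
    · have h4 := a1 i
      have h5 := a2 i
      rw [abs_le] at h4 h5 ⊢
      push_cast
      constructor <;> linarith [h4.1, h4.2, h5.1, h5.2]
    · rw [mem_reps] at h2 h3
      have h6 : ∑ i, (p.1 i - p.2 i) * (p.1 i + p.2 i) = ∑ i, p.1 i ^ 2 - ∑ i, p.2 i ^ 2 := by
        rw [← Finset.sum_sub_distrib]
        apply Finset.sum_congr rfl
        intro i _
        ring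
      rw [h6, h2, h3, sub_self]
  · intro p _ p' _ h
    simp only [Prod.mk.injEq] at h
    have e : ∀ i, p.1 i = p'.1 i ∧ p.2 i = p'.2 i := by
      intro i
      have h1 := congrFun h.1 i
      have h2 := congrFun h.2 i
      constructor <;> linarith
    exact Prod.ext (funext fun i => (e i).1) (funext fun i => (e i).2)

theorem t_R4 : S_R4 := by
  have hKZ := KZ_nonneg
  refine ⟨(81 + 5832 * KZ) * 64, by positivity, fun N => ?_⟩
  rcases Nat.eq_zero_or_pos N with h | h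
  · subst h; simp
  have hs : 1 ≤ Nat.sqrt N := by
    rw [Nat.le_sqrt]; omega
  have h1 := Z4_card (2 * Nat.sqrt N) (by omega)
  have h2 : ∑ n ∈ Icc 1 N, ((reps n).card : ℝ) ^ 2 ≤ ((Z4 (2 * Nat.sqrt N)).card : ℝ) := by
    exact_mod_cast sum_le_Z4 N
  have h3 : ((2 * Nat.sqrt N : ℕ) : ℝ) ^ 2 ≤ 4 * N := by
    have h4 : (2 * Nat.sqrt N) ^ 2 ≤ 4 * N := by
      have := Nat.sqrt_le' N
      nlinarith
    exact_mod_cast h4
  have h4 : ((2 * Nat.sqrt N : ℕ) : ℝ) ^ 6 ≤ 64 * (N : ℝ) ^ 3 := by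
    calc ((2 * Nat.sqrt N : ℕ) : ℝ) ^ 6 = (((2 * Nat.sqrt N : ℕ) : ℝ) ^ 2) ^ 3 := by ring
      _ ≤ (4 * (N : ℝ)) ^ 3 := pow_le_pow_left₀ (by positivity) h3 3
      _ = _ := by ring
  calc _ ≤ ((Z4 (2 * Nat.sqrt N)).card : ℝ) := h2
    _ ≤ (81 + 5832 * KZ) * ((2 * Nat.sqrt N : ℕ) : ℝ) ^ 6 := h1
    _ ≤ (81 + 5832 * KZ) * (64 * (N : ℝ) ^ 3) := by gcongr
    _ = _ := by ring

end Pool.Agent.D0H87.TW
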