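import Mathlib
import Pool.Agent.D0H11.TW.Stm
import Pool.Agent.H807R2.Dav1

/-!
# Project TW, module 1 WEYL: Weyl's inequality for `c (420 t² + u t)`
-/

set_option autoImplicit false

namespace Pool.Agent.D0H87.TW

open Finset Filter Pool.Agent.D0H11.TW

theorem ee_eq_dav (x : ℝ) : ee x = Pool.Agent.H807R2.Dav.ee x := rfl

/-- Weyl differencing, as an identity -/
theorem diff_id (f : ℕ → ℂ) (hf : ∀ n, ‖f n‖ = 1) (T : ℕ) :
    ‖∑ n ∈ range T, f n‖ ^ 2 = T + 2 * ∑ h ∈ range T,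
      (∑ n ∈ range (T - (h + 1)), f (n + (h + 1)) * (starRingEnd ℂ) (f n)).re := by
  induction T with
  | zero => simp
  | succ T ih =>
    rw [Finset.sum_range_succ f T, Finset.sum_range_succ (fun h => (∑ n ∈ range (T + 1 - (h + 1)),
      f (n + (h + 1)) * (starRingEnd ℂ) (f n)).re) T]
    have h0 : (∑ n ∈ range (T + 1 - (T + 1)), f (n + (T + 1)) * (starRingEnd ℂ) (f n)).re = 0 := by
      simp
    rw [h0, add_zero]
    have h1 : ∀ h ∈ range T, (∑ n ∈ range (T + 1 - (h + 1)),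
        f (n + (h + 1)) * (starRingEnd ℂ) (f n)).re =
        (∑ n ∈ range (T - (h + 1)), f (n + (h + 1)) * (starRingEnd ℂ) (f n)).re +
          (f T * (starRingEnd ℂ) (f (T - 1 - h))).re := by
      intro h hh
      have hh' := mem_range.1 hh
      have e1 : T + 1 - (h + 1) = (T - (h + 1)) + 1 := by omega
      rw [e1, Finset.sum_range_succ, Complex.add_re]
      have e2 : T - (h + 1) + (h + 1) = T := by omega
      have e3 : T - (h + 1) = T - 1 - h := by omega
      rw [e2, e3]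
    rw [Finset.sum_congr rfl h1, Finset.sum_add_distrib]
    have h2 : ∑ h ∈ range T, (f T * (starRingEnd ℂ) (f (T - 1 - h))).re =
        (f T * (starRingEnd ℂ) (∑ n ∈ range T, f n)).re := by
      rw [← Complex.re_sum, ← Finset.mul_sum]
      congr 2
      rw [map_sum, Finset.sum_range_reflect (fun n => (starRingEnd ℂ) (f n))]
    rw [h2]
    have h3 : ‖∑ n ∈ range T, f n + f T‖ ^ 2 = ‖∑ n ∈ range T, f n‖ ^ 2 + 1 +
        2 * (f T * (starRingEnd ℂ) (∑ n ∈ range T, f n)).re := by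
      set S := ∑ n ∈ range T, f n with hS
      have e1 : ‖S + f T‖ ^ 2 = Complex.normSq (S + f T) := (Complex.normSq_eq_norm_sq _).symm
      have e2 : ‖S‖ ^ 2 = Complex.normSq S := (Complex.normSq_eq_norm_sq _).symm
      have e3 : Complex.normSq (f T) = 1 := by rw [Complex.normSq_eq_norm_sq, hf]; norm_num
      rw [e1, e2, add_comm S (f T), Complex.normSq_add, e3]
      ring
    rw [h3, ih]
    push_cast
    ring

theorem diff_le (f : ℕ → ℂ) (hf : ∀ n, ‖f n‖ = 1) (T : ℕ) :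
    ‖∑ n ∈ range T, f n‖ ^ 2 ≤ T + 2 * ∑ h ∈ range T,
      ‖∑ n ∈ range (T - (h + 1)), f (n + (h + 1)) * (starRingEnd ℂ) (f n)‖ := by
  rw [diff_id f hf T]
  have := Finset.sum_le_sum (s := range T) (fun h _ =>
    Complex.re_le_norm (∑ n ∈ range (T - (h + 1)), f (n + (h + 1)) * (starRingEnd ℂ) (f n)))
  linarith

theorem ee_neg_conj (x : ℝ) : (starRingEnd ℂ) (ee x) = ee (-x) := by
  unfold ee
  rw [← Complex.exp_conj]
  congr 1
  simp only [map_mul, Complex.conj_ofReal, Complex.conj_I, map_ofNat]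
  push_cast
  ring

theorem ee_add' (x y : ℝ) : ee (x + y) = ee x * ee y := Pool.Agent.H807R2.Dav.ee_add x y

theorem norm_ee' (x : ℝ) : ‖ee x‖ = 1 := Pool.Agent.H807R2.Dav.norm_ee x

theorem sum_Ico_int (T : ℕ) (g : ℤ → ℂ) : ∑ t ∈ Ico (0 : ℤ) T, g t = ∑ n ∈ range T, g n := by
  have h : Ico (0 : ℤ) T = (range T).image (fun n : ℕ => (n : ℤ)) := by
    ext x
    simp only [mem_Ico, mem_image, mem_range]
    constructor
    · rintro ⟨h1, h2⟩
      exact ⟨x.toNat, by omega, by omega⟩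
    · rintro ⟨n, hn, rfl⟩
      omega
  rw [h, Finset.sum_image (fun a _ b _ hab => by exact_mod_cast hab)]

theorem t_WEYL : S_WEYL := by
  refine ⟨500000, by norm_num, fun T q a c u θ hT hq hcop hθ hc1 hc7 hu0 hu => ?_⟩
  have hT0 : (0 : ℝ) < T := by exact_mod_cast (by omega : 0 < T)
  have hT1 : (1 : ℝ) ≤ T := by exact_mod_cast (by omega : 1 ≤ T)
  have hq0 : (0 : ℝ) < q := by exact_mod_cast hq
  have hq1 : (1 : ℝ) ≤ q := by exact_mod_cast hq
  rw [sum_Ico_int T (fun t => ee (θ * (c * ph u t : ℤ)))]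
  set f : ℕ → ℂ := fun n => ee (θ * (c * ph u n : ℤ)) with hf
  have hf1 : ∀ n, ‖f n‖ = 1 := fun n => norm_ee' _
  have h1 := diff_le f hf1 T
  have h2 : ∀ h ∈ range T, ‖∑ n ∈ range (T - (h + 1)), f (n + (h + 1)) * (starRingEnd ℂ) (f n)‖ ≤
      Pool.Agent.H807R2.Dav.KK T (0 + ((840 * c.toNat * (h + 1) : ℕ) : ℝ) * θ) := by
    intro h hh
    have hh' := mem_range.1 hh
    have e1 : ∀ n ∈ range (T - (h + 1)), f (n + (h + 1)) * (starRingEnd ℂ) (f n) =
        ee (θ * (c * ph u (h + 1) : ℤ)) * Pool.Agent.H807R2.Dav.ee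
          (n * (0 + ((840 * c.toNat * (h + 1) : ℕ) : ℝ) * θ)) := by
      intro n _
      rw [← ee_eq_dav]
      simp only [hf]
      rw [ee_neg_conj, ← ee_add', ← ee_add']
      congr 1
      have hc : ((c.toNat : ℕ) : ℝ) = (c : ℝ) := by
        have : ((c.toNat : ℕ) : ℤ) = c := Int.toNat_of_nonneg (by omega)
        exact_mod_cast this
      unfold ph
      push_cast
      rw [hc]
      ring
    rw [Finset.sum_congr rfl e1, ← Finset.mul_sum, norm_mul, norm_ee', one_mul]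
    have h3 := Pool.Agent.H807R2.Dav.geo_bound 0 (T - (h + 1)) (Nat.zero_le _) (M := T) (by
      rw [Nat.cast_zero, sub_zero]
      exact_mod_cast Nat.sub_le _ _) (0 + ((840 * c.toNat * (h + 1) : ℕ) : ℝ) * θ)
    rwa [Nat.Ico_zero_eq_range] at h3
  have h3 : ∑ h ∈ range T, Pool.Agent.H807R2.Dav.KK T (0 + ((840 * c.toNat * (h + 1) : ℕ) : ℝ) * θ) ≤
      ∑ j ∈ range (5880 * T + 1), Pool.Agent.H807R2.Dav.KK T (0 + (j : ℝ) * θ) := by
    have e : ∑ h ∈ range T, Pool.Agent.H807R2.Dav.KK T (0 + ((840 * c.toNat * (h + 1) : ℕ) : ℝ) * θ) =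
        ∑ j ∈ (range T).image (fun h => 840 * c.toNat * (h + 1)),
          Pool.Agent.H807R2.Dav.KK T (0 + (j : ℝ) * θ) := by
      rw [Finset.sum_image]
      intro x _ y _ hxy
      have hc0 : 0 < 840 * c.toNat := by omega
      have := Nat.eq_of_mul_eq_mul_left hc0 hxy
      omega
    rw [e]
    apply Finset.sum_le_sum_of_subset_of_nonneg
    · intro j hj
      rw [mem_image] at hj
      obtain ⟨h, hh, rfl⟩ := hj
      rw [mem_range] at hh ⊢
      have hc : c.toNat ≤ 7 := by omega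
      have : 840 * c.toNat * (h + 1) ≤ 5880 * T := Nat.mul_le_mul (by omega) (by omega)
      omega
    · intro j _ _
      exact Pool.Agent.H807R2.Dav.KK_nonneg hT0.le _
  have h4 := Pool.Agent.H807R2.Dav.vino hq hcop hθ (M := (T : ℝ)) hT0.le 0 (5880 * T + 1)
  have h5 := Finset.sum_le_sum h2
  set L := Real.log q with hL
  set LT := Real.log T with hLT
  have hL0 : 0 ≤ L := Real.log_nonneg hq1
  have hLT0 : 0 ≤ LT := Real.log_nonneg hT1
  have h6 : ‖∑ n ∈ range T, f n‖ ^ 2 ≤ T + 2 * ((((5880 * T + 1 : ℕ) : ℝ) / q + 1) *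
      (39 * T + 3 * q * (1 + L))) := by linarith
  refine h6.trans ?_
  have h7 : (((5880 * T + 1 : ℕ) : ℝ) / q + 1) * (39 * T + 3 * q * (1 + L)) ≤
      (5881 * (T : ℝ) / q + 1) * (39 * T + 3 * q * (1 + L)) := by
    apply mul_le_mul_of_nonneg_right _ (by positivity)
    push_cast
    have : (5880 * (T : ℝ) + 1) / q ≤ 5881 * T / q := div_le_div_of_nonneg_right (by linarith) hq0.le
    linarith
  have h8 : (5881 * (T : ℝ) / q + 1) * (39 * T + 3 * q * (1 + L)) =
      5881 * 39 * ((T : ℝ) ^ 2 / q) + 5881 * 3 * T * (1 + L) + 39 * T + 3 * q * (1 + L) := by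
    field_simp
    ring
  have h9 : 0 ≤ (T : ℝ) ^ 2 / q := by positivity
  have h10 : (T : ℝ) ^ 2 / q ≤ (T : ℝ) ^ 2 / q * (LT + L + 1) :=
    le_mul_of_one_le_right h9 (by linarith)
  have h11 : (T : ℝ) ≤ T * (LT + L + 1) := le_mul_of_one_le_right hT0.le (by linarith)
  have h12 : (T : ℝ) * (1 + L) ≤ T * (LT + L + 1) := mul_le_mul_of_nonneg_left (by linarith) hT0.le
  have h13 : (q : ℝ) * (1 + L) ≤ q * (LT + L + 1) := mul_le_mul_of_nonneg_left (by linarith) hq0.le
  have h14 : 0 ≤ (T : ℝ) * (LT + L + 1) := by positivity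
  have h15 : 0 ≤ (q : ℝ) * (LT + L + 1) := by positivity
  have h16 : 0 ≤ (T : ℝ) ^ 2 / q * (LT + L + 1) := by positivity
  nlinarith

end Pool.Agent.D0H87.TW
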